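import Pool.Agent.helper63.LB.A

/-! Module C of project LB (counting of distinct abelian squares). -/

namespace Pool.Agent.helper20.LB

theorem C_same_left {f : ℤ → ℤ} {s t : ℤ × ℤ} (h0 : 0 ≤ s.2) (h : Same f s t) :
    f s.1 - f (s.1 - s.2) = f t.1 - f (t.1 - t.2) := by
  obtain ⟨h1, h2⟩ := h
  have := h2 (-s.2) le_rfl (by omega)
  rw [← h1]
  have e1 : s.1 + -s.2 = s.1 - s.2 := by ring
  have e2 : t.1 + -s.2 = t.1 - s.2 := by ring
  rw [e1, e2] at this
  omega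

theorem count_levels {f : ℤ → ℤ} {n : ℤ} {E : ℕ} (hE : Bd f n E) {a b : ℤ}
    (h : ∀ k, a ≤ k → k < b → ∃ s, IsSq f n s ∧ f s.1 - f (s.1 - s.2) = k) : b - a ≤ E := by
  classical
  have h' : ∀ k, ∃ s : ℤ × ℤ, (a ≤ k ∧ k < b → IsSq f n s ∧ f s.1 - f (s.1 - s.2) = k) := by
    intro k
    by_cases hk : a ≤ k ∧ k < b
    · obtain ⟨s, hs⟩ := h k hk.1 hk.2
      exact ⟨s, fun _ => hs⟩
    · exact ⟨0, fun h => absurd h hk⟩
  choose s hs using h'
  have hinj : Set.InjOn s (Finset.Ico a b : Finset ℤ) := by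
    intro k hk l hl hkl
    rw [Finset.mem_coe, Finset.mem_Ico] at hk hl
    have h1 := (hs k hk).2
    have h2 := (hs l hl).2
    rw [hkl] at h1
    omega
  have hc := hE ((Finset.Ico a b).image s) (by
    intro t ht
    rw [Finset.mem_image] at ht
    obtain ⟨k, hk, rfl⟩ := ht
    rw [Finset.mem_Ico] at hk
    exact (hs k hk).1) (by
    intro t ht u hu hsame
    rw [Finset.mem_image] at ht hu
    obtain ⟨k, hk, rfl⟩ := ht
    obtain ⟨l, hl, rfl⟩ := hu
    rw [Finset.mem_Ico] at hk hl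
    have h1 := (hs k hk).2
    have h2 := (hs l hl).2
    have h0 := (hs k hk).1.1
    have h3 := C_same_left (by omega) hsame
    have : k = l := by omega
    rw [this])
  rw [Finset.card_image_of_injOn hinj, Int.card_Ico] at hc
  omega

theorem co_step {f : ℤ → ℤ} (hf : Step f) : Step (co f) := by
  intro x
  have := hf x
  simp only [co]
  omega

theorem co_F (f : ℤ → ℤ) (c r : ℤ) : F (co f) c r = - F f c r := by
  simp only [F, co]
  ring

theorem C_co_IsSq {f : ℤ → ℤ} {n : ℤ} {s : ℤ × ℤ} (h : IsSq (co f) n s) : IsSq f n s := by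
  obtain ⟨h1, h2, h3, h4⟩ := h
  rw [co_F] at h4
  exact ⟨h1, h2, h3, by omega⟩

theorem C_co_Same {f : ℤ → ℤ} {s t : ℤ × ℤ} (h : Same f s t) : Same (co f) s t := by
  obtain ⟨h1, h2⟩ := h
  refine ⟨h1, fun j a b => ?_⟩
  have := h2 j a b
  simp only [co]
  omega

theorem co_Bd {f : ℤ → ℤ} {n : ℤ} {E : ℕ} (hE : Bd f n E) : Bd (co f) n E := by
  intro A h1 h2
  exact hE A (fun s hs => C_co_IsSq (h1 s hs)) (fun s hs t ht h => h2 s hs t ht (C_co_Same h))

theorem C_rep_aux {f : ℤ → ℤ} (hf : Step f) {n : ℤ} {E : ℕ} (hE : Bd f n E) {x x' M : ℤ}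
    (hx0 : 0 ≤ x) (hx : x < x') (hM : 0 ≤ M) (hn : x' + M ≤ n)
    (hrep : ∀ j, 0 ≤ j → j ≤ M → f (x' + j) - f x' = f (x + j) - f x) :
    f (x + M) - f x ≤ 2 * E + 3 := by
  by_contra hcon
  have hc := count_levels hE (a := 1) (b := (E : ℤ) + 2) (by
    intro k hk1 hk2
    obtain ⟨c, r, h1, h2, h3, h4, h5⟩ := rep_level hf hx hM hrep hk1 (by omega)
    refine ⟨(c, r), ⟨h1, ?_, ?_, ?_⟩, h4⟩
    · show 0 ≤ c - r
      omega
    · show c + r ≤ n
      omega
    · show F f c r = 0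
      simp only [F]
      omega)
  omega

theorem rep_bound {f : ℤ → ℤ} (hf : Step f) {n : ℤ} {E : ℕ} (hE : Bd f n E) {x x' M : ℤ}
    (hx0 : 0 ≤ x) (hx : x < x') (hM : 0 ≤ M) (hn : x' + M ≤ n)
    (hrep : ∀ j, 0 ≤ j → j ≤ M → f (x' + j) - f x' = f (x + j) - f x) : M ≤ 4 * E + 6 := by
  have h1 := C_rep_aux hf hE hx0 hx hM hn hrep
  have h2 := C_rep_aux (co_step hf) (co_Bd hE) hx0 hx hM hn (by
    intro j a b
    have := hrep j a b
    simp only [co]
    omega)
  simp only [co] at h2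
  omega

theorem C_uniq_aux {f : ℤ → ℤ} (hf : Step f) {n : ℤ} {E : ℕ} (hE : Bd f n E) {s t : ℤ × ℤ}
    (hs : IsSq f n s) (ht : IsSq f n t) (hr : 2 * (E : ℤ) + 4 ≤ s.2) (h : Same f s t)
    (hlt : s.1 < t.1) : False := by
  obtain ⟨h1, h2⟩ := h
  obtain ⟨a1, a2, a3, a4⟩ := hs
  obtain ⟨b1, b2, b3, b4⟩ := ht
  have hb := rep_bound hf hE (x := s.1 - s.2) (x' := t.1 - s.2) (M := 2 * s.2) a2 (by omega)
    (by omega) (by omega) (by
      intro j j1 j2
      have e1 := h2 (j - s.2) (by omega) (by omega)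
      have e2 := h2 (-s.2) (by omega) (by omega)
      have g1 : s.1 + (j - s.2) = s.1 - s.2 + j := by ring
      have g2 : t.1 + (j - s.2) = t.1 - s.2 + j := by ring
      have g3 : s.1 + -s.2 = s.1 - s.2 := by ring
      have g4 : t.1 + -s.2 = t.1 - s.2 := by ring
      rw [g1, g2] at e1
      rw [g3, g4] at e2
      omega)
  omega

theorem C_same_symm {f : ℤ → ℤ} {s t : ℤ × ℤ} (h : Same f s t) : Same f t s := by
  obtain ⟨h1, h2⟩ := h
  exact ⟨h1.symm, fun j a b => (h2 j (by omega) (by omega)).symm⟩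

theorem uniq {f : ℤ → ℤ} (hf : Step f) {n : ℤ} {E : ℕ} (hE : Bd f n E) {s t : ℤ × ℤ}
    (hs : IsSq f n s) (ht : IsSq f n t) (hr : 2 * (E : ℤ) + 4 ≤ s.2) (h : Same f s t) : s = t := by
  rcases lt_trichotomy s.1 t.1 with h' | h' | h'
  · exact (C_uniq_aux hf hE hs ht hr h h').elim
  · exact Prod.ext h' h.1
  · exact (C_uniq_aux hf hE ht hs (by rw [← h.1]; exact hr) (C_same_symm h) h').elim

theorem alt_bound {f : ℤ → ℤ} (hf : Step f) {n : ℤ} {E : ℕ} (hE : Bd f n E) {H D y1 y2 : ℤ}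
    (hH : 1 ≤ H) (hD : 0 ≤ D) (h12 : y1 < y2) (hy1 : D ≤ y1) (hy2 : y2 + D ≤ n)
    (hp : ∀ r, H ≤ r → r ≤ D → 0 < F f y1 r) (hn : ∀ r, H ≤ r → r ≤ D → F f y2 r < 0) :
    f y1 - f (y2 - D) - H ≤ E := by
  refine count_levels hE (a := H) (b := f y1 - f (y2 - D)) ?_
  intro k hk1 hk2
  obtain ⟨y, r, h1, h2, h3, h4, h5, h6⟩ := alt_level hf (k := k) (by omega) hk1 hD h12 hp hn hk2
  refine ⟨(y, r), ⟨h3, ?_, ?_, ?_⟩, h5⟩
  · show 0 ≤ y - r
    omega
  · show y + r ≤ n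
    omega
  · show F f y r = 0
    simp only [F]
    omega

theorem Bd_two {f : ℤ → ℤ} {n : ℤ} {E : ℕ} (hE : Bd f n E) (A : Finset ℤ) (hh : ℤ → ℤ)
    (hA : ∀ y ∈ A, IsSq f n (y, hh y))
    (h3 : ∀ y1 ∈ A, ∀ y2 ∈ A, ∀ y3 ∈ A, y1 < y2 → y2 < y3 →
      Same f (y2, hh y2) (y1, hh y1) → Same f (y2, hh y2) (y3, hh y3) → False) :
    A.card ≤ 2 * E := by
  classical
  set code : ℤ → ℤ × (ℤ → ℤ) :=
    fun y => (hh y, fun j => if |j| ≤ hh y then f (y + j) - f y else 0) with hcode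
  have hc : ∀ y z, code y = code z → Same f (y, hh y) (z, hh z) := by
    intro y z h
    have h1 : hh y = hh z := congrArg Prod.fst h
    have h2 : (fun j => if |j| ≤ hh y then f (y + j) - f y else 0) =
        (fun j => if |j| ≤ hh z then f (z + j) - f z else 0) := congrArg Prod.snd h
    refine ⟨h1, fun j j1 j2 => ?_⟩
    have h4 := congrFun h2 j
    simp only at j1 j2
    have hj : |j| ≤ hh y := abs_le.2 ⟨j1, j2⟩
    simp only [hj, ← h1, if_true] at h4
    exact h4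
  have hc' : ∀ y z, Same f (y, hh y) (z, hh z) → code y = code z := by
    rintro y z ⟨h1, h2⟩
    simp only at h1 h2
    refine Prod.ext h1 ?_
    funext j
    simp only [hcode, ← h1]
    split_ifs with hj
    · rw [abs_le] at hj
      exact h2 j hj.1 hj.2
    · rfl
  have hfib : ∀ c ∈ A.image code, (A.filter (fun y => code y = c)).card ≤ 2 := by
    intro c _
    by_contra hcon
    push Not at hcon
    rw [Finset.two_lt_card] at hcon
    obtain ⟨a, ha, b, hb, d, hd, hab, had, hbd⟩ := hcon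
    rw [Finset.mem_filter] at ha hb hd
    have key : ∀ y1 y2 y3, (y1 ∈ A ∧ code y1 = c) → (y2 ∈ A ∧ code y2 = c) →
        (y3 ∈ A ∧ code y3 = c) → y1 < y2 → y2 < y3 → False := by
      intro y1 y2 y3 h1 h2 h3' h12 h23
      exact h3 y1 h1.1 y2 h2.1 y3 h3'.1 h12 h23 (hc _ _ (h2.2.trans h1.2.symm))
        (hc _ _ (h2.2.trans h3'.2.symm))
    rcases lt_or_gt_of_ne hab with p | p <;> rcases lt_or_gt_of_ne had with q | q <;>
      rcases lt_or_gt_of_ne hbd with r | r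
    · exact key a b d ha hb hd p r
    · exact key a d b ha hd hb q r
    · omega
    · exact key d a b hd ha hb q p
    · exact key b a d hb ha hd p q
    · omega
    · exact key b d a hb hd ha r q
    · exact key d b a hd hb ha r p
  have hcard : A.card ≤ 2 * (A.image code).card :=
    Finset.card_le_mul_card_image (s := A) 2 hfib
  -- representatives
  have hrep : ∀ c : ℤ × (ℤ → ℤ), ∃ y : ℤ, c ∈ A.image code → y ∈ A ∧ code y = c := by
    intro c
    by_cases h : c ∈ A.image code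
    · obtain ⟨y, hy, hyc⟩ := Finset.mem_image.1 h
      exact ⟨y, fun _ => ⟨hy, hyc⟩⟩
    · exact ⟨0, fun h' => absurd h' h⟩
  choose rep hrep using hrep
  have hinj : Set.InjOn (fun c => (rep c, hh (rep c))) (A.image code : Finset _) := by
    intro c hc1 d hd1 h
    have h1 : rep c = rep d := congrArg Prod.fst h
    rw [← (hrep c hc1).2, ← (hrep d hd1).2, h1]
  have hE' := hE ((A.image code).image (fun c => (rep c, hh (rep c)))) (by
    intro s hs
    obtain ⟨c, hc1, rfl⟩ := Finset.mem_image.1 hs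
    exact hA _ (hrep c hc1).1) (by
    intro s hs t ht hst
    obtain ⟨c, hc1, rfl⟩ := Finset.mem_image.1 hs
    obtain ⟨d, hd1, rfl⟩ := Finset.mem_image.1 ht
    have h1 := hc' _ _ hst
    rw [(hrep c hc1).2, (hrep d hd1).2] at h1
    rw [h1])
  rw [Finset.card_image_of_injOn hinj] at hE'
  omega

end Pool.Agent.helper20.LB
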